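import Pool.Agent.V8H91.TP.Main

/-!
# The `ℓ`-adic monodromy-weight conjecture: the growth of the weights of the kernel of the monodromy
operator on the powers of a variety

Let `K` be a local field, with residue field with `q` elements, `X` a smooth proper variety over `K`,
`H^m(X)` its `ℓ`-adic cohomology (over an algebraic closure of `ℚ_ℓ`, `ℓ ≠ p`), `F` an element of the Weil
group which induces the geometric Frobenius, `N` the monodromy operator. Let `M` be the monodromy
filtration. The monodromy-weight conjecture for `X` says that the eigenvalues of `F` on
`gr^M_s H^m(X)` have weight `m + s`. The kernel of `N` is the space of the invariants of a small open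
subgroup of the inertia group; the conjecture implies that the weights of `F` on `ker N` on `H^m` are at
most `m` (this is what the local factors of the `L`-functions see: no poles to the right of the line
`Re s = m / 2`). By the *excess* of a weight `w` on `H^m` we mean `w - m`.

The *deviations* of `X` are the differences `d = c - s` of an excess `c` which occurs in
`gr^M_s H^*(X)` and the excess `s` which is expected there. So the conjecture is true for `X` if and only
if `0` is the only deviation.

**Theorem.** Let `d(X)` be the greatest deviation of `X`, and let `e(Y)` be the greatest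
excess of a weight of `F` on the kernel of `N` on `H^*(Y)`. Then

* `d(X) ≥ 0`, and the conjecture is true for `X` if and only if `d(X) = 0`;
* `e(X^n) = n d(X)` for all even `n > 0`, and `e(X^n) ≤ n d(X)` for all `n > 0`;
* (gap) so either the conjecture is true for `X`, and the weights of `F` on `ker N` on `H^m(X^n)` are at
  most `m` for all `m` and `n`, or `e(X^n) ≥ n` for all even `n`;
* the conjecture is true for `X` if and only if for one even `n > 0` all weights of `F` on the kernel of
  `N` on the groups `H^m(X^n)` are less than `m + n`.

In other words: the failure of the conjecture, the greatest deviation, is an integer which is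
the rate of growth of the weights of the inertia invariants of the powers of `X`; a bound
of the type `e(X^n) = o(n)`, and even the bound `e(X^n) < n` for a single even `n`, implies the conjecture
for `X`.

The known properties of the cohomology (`Theory.IsLocal`) are hypotheses: `N F = q F N`, integrality of
the weights of `F`, Poincaré duality and hard Lefschetz, the Künneth formula.

## Proof

Let `x` be the first vector of a string `x, N x, ..., N^k x`, `N^(k+1) x = 0`, of excess `c` with
`c - k = d(X)`, and let `y` be in the kernel of `N` on `H^*(X^(2r))`. The vector

`z = ∑ (-1)^a N^a x ⊗ N^(k-a) (x ⊗ y)`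

in `H^*(X^(2r+2))` is in the kernel of `N`, it is not zero (apply `N^k ⊗ 1`), and its excess is
`2 (c - k)` plus the excess of `y`. For the upper bound we use a basis of `H^*(X^n)` adapted to the excess
and to a representation of `sl(2)` with the lowering operator `N`: the elements of the kernel of `N` have
weights `≤ 0` for `sl(2)`. By duality the sum of all deviations, counted with multiplicity, is zero. This
is a quantitative form of Deligne's argument with tensor powers in the proof of his theorem on the
monodromy filtration for curves over finite fields.
-/

set_option autoImplicit false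

open Module

universe u v w

namespace Pool.Agent.Results.MP_cd312e_ag.InvariantGrowth

open Pool.Agent.H914 Pool.Agent.Y143 Pool.Agent.Y163.MW Pool.Agent.V8H91.TP

/-- `X^n`, `n = 2 (r + 1)`. -/
noncomputable def evenPow {K : Type u} [Field K] (X : SmVar.{u} K) (r : ℕ) : SmVar.{u} K :=
  pow X (2 * r + 1)

/-- The monodromy-weight conjecture for `X`. -/
def MonodromyWeight {K : Type u} [Field K] {Ω : Type w} [Field Ω] [CharZero Ω]
    (T : Theory.{u, v, w} K Ω) (q : ℕ) (X : SmVar.{u} K) : Prop := ∀ m, (T.H X).MWPure q m

/-- **The growth of the weights of the inertia invariants.** Let `X` be a smooth proper variety over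
the local field `K`, with nonzero cohomology. There is a natural number `d` such that

* `d` is the greatest deviation of `X` from the monodromy-weight conjecture;
* the conjecture is true for `X` if and only if `d = 0`;
* the greatest excess of a weight on the kernel of the monodromy operator on the cohomology of `X^n`
  is `n d` for all even `n = 2 (r + 1)`;
* the excess is at most `n d` for all `n > 0` (`pow X n` is `X^(n + 1)`).

Therefore: the conjecture is true for `X` if and only if, for one even `n = 2 (r + 1)`, all excesses
for `X^n` are less than `n`; and if it is false then for all even `n` there is an excess `≥ n`. -/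
theorem result {K : Type u} [Field K] {Ω : Type w} [Field Ω] [CharZero Ω] [IsAlgClosed Ω] {q : ℕ}
    (hq : 1 < q) (T : Theory.{u, v, w} K Ω) (hT : T.IsLocal q) (X : SmVar.{u} K)
    [Nontrivial (T.H X).V] :
    (∃ d : ℕ, IsGreatest (Deviation (T.H X) q) d ∧ (MonodromyWeight T q X ↔ d = 0) ∧
      (∀ r : ℕ, IsGreatest (InvExcess (T.H (evenPow X r)) q) (2 * (r + 1) * d)) ∧
      ∀ n, ∀ c ∈ InvExcess (T.H (pow X n)) q, c ≤ (n + 1) * d) ∧
    (MonodromyWeight T q X ↔ ∃ r : ℕ, ∀ c ∈ InvExcess (T.H (evenPow X r)) q, c < 2 * (r + 1)) ∧
    (¬ MonodromyWeight T q X →
      ∀ r : ℕ, ∃ c ∈ InvExcess (T.H (evenPow X r)) q, 2 * (r + 1) ≤ c) := by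
  obtain ⟨d, h1, h2, h3, h4⟩ := growth hT hq X
  have h5 : ¬ MonodromyWeight T q X →
      ∀ r : ℕ, ∃ c ∈ InvExcess (T.H (evenPow X r)) q, 2 * ((r : ℤ) + 1) ≤ c := by
    intro hn r
    refine ⟨2 * (r + 1) * d, (h3 r).1, ?_⟩
    have hd : (1 : ℤ) ≤ d := by
      have : d ≠ 0 := fun h => hn (h4.2 h)
      omega
    nlinarith
  refine ⟨⟨d, h1, h4, h3, h2⟩, ⟨fun h => ⟨0, fun c hc => ?_⟩, fun ⟨r, hr⟩ => ?_⟩, h5⟩
  · have h6 := (h3 0).2 hc
    rw [h4.1 h] at h6
    push_cast at h6 ⊢
    omega
  · by_contra hn
    obtain ⟨c, hc, hle⟩ := h5 hn r
    have := hr c hc
    omega

end Pool.Agent.Results.MP_cd312e_ag.InvariantGrowth
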