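import Mathlib
import Pool.Agent.V8H91.MW.Defs
import Pool.Agent.V8H91.MW.JordanDefs
import Pool.Agent.V8H91.MW.JordanMain

/-!
# The monodromy-weight conjecture when the small Jordan blocks of the monodromy operator are few

Let `X` be a smooth projective variety over a local field `K`, `V = H^m(X)` with coefficients in an
algebraic closure `Ω` of `ℚ_ℓ`, and `N` its monodromy operator.  For `k ≥ 1` let
`Q_k = ker N^k / (ker N^{k-1} + N (ker N^{k+1}))` be the multiplicity space of the Jordan blocks of
size `k`; it is a representation of the Weil group.  We prove:

* the monodromy-weight conjecture for `H^m(X)` is equivalent to the statement that `Q_k` is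
  isobaric for `1 ≤ k ≤ m - 2` (all eigenvalues of an element of positive valuation have the same
  weight; nothing is required about the value of this weight);
* the conjecture is TRUE for `H^m(X)` if for `1 ≤ k ≤ m - 2` the representation `Q_k` of the Weil
  group is zero or irreducible;
* in particular the conjecture is true for `H^m(X)` if for `1 ≤ k ≤ m - 2` the monodromy operator
  has at most one Jordan block of size `k` (the number of these blocks is
  `2 dim ker N^k - dim ker N^{k-1} - dim ker N^{k+1}`).

For instance, for a threefold the conjecture is true for `H^3(X)` if `ker N` is contained in the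
image of `N`.  There is no hypothesis on the special fibre.

The inputs are the known properties of `V` (`IsGeometric`: integral weights between `0` and `2 m`,
Poincaré duality and hard Lefschetz), the known part of the conjecture (`KnownEdges`: `N^m` on
weight `2 m` and `N^{m-1}` on weight `2 m - 1`) and, for the second statement, the monodromy theorem
of Grothendieck.

Idea: if the conjecture fails then there is a class in some `Q_k` with a weight greater than
`m + k - 1`; by the known edges `k ≤ m - 2`, and by duality there is another class in `Q_k` with a
weight smaller than `m + k - 1`.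
-/

set_option autoImplicit false

namespace Pool.Agent.Results.MP_cd312e_ag.JordanBlockCriterion

open Module Pool.Agent.V8H91.MW

/-- The criterion and its consequences. -/
theorem result {Ω : Type*} [Field Ω] [CharZero Ω] [IsAlgClosed Ω]
    -- the Weil group
    (q : ℕ) (hq : 1 < q) {W : Type*} [Group W] (v : W →* Multiplicative ℤ)
    (hv : ∃ g, v g = Multiplicative.ofAdd 1)
    -- the cohomology group `V = H^m(X)` with its monodromy operator
    {V : Type*} [AddCommGroup V] [Module Ω V] [FiniteDimensional Ω V]
    (ρ : Representation Ω W V) (N : Module.End Ω V) (m : ℕ)
    (hV : IsGeometric q v ρ N m) (hE : KnownEdges q v ρ N m) :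
    -- the criterion
    (MonodromyWeight q v ρ N m ↔ ∀ k : ℕ, 1 ≤ k → k + 2 ≤ m → Isobaric q v ρ N k) ∧
    -- irreducible multiplicity spaces
    (GrothendieckMonodromy v ρ N → (∀ k : ℕ, 1 ≤ k → k + 2 ≤ m → ZeroOrIrreducible ρ N k) →
      MonodromyWeight q v ρ N m) ∧
    -- at most one Jordan block of each size `k ≤ m - 2`
    ((∀ k : ℕ, 1 ≤ k → k + 2 ≤ m → 2 * finrank Ω (LinearMap.ker (N ^ k)) ≤
      finrank Ω (LinearMap.ker (N ^ (k - 1))) + finrank Ω (LinearMap.ker (N ^ (k + 1))) + 1) →
      MonodromyWeight q v ρ N m) :=
  jordan_criterion hq hv hV hE

end Pool.Agent.Results.MP_cd312e_ag.JordanBlockCriterion
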