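import Pool.Agent.V8H91.ML.Main

/-!
# The `ℓ`-adic monodromy-weight conjecture: maximal monodromy, and comparison of two theories

Let `X` be a smooth projective variety over a finite extension `K` of `ℚ_p`, whose residue field has
`q` elements. We consider the `ℓ`-adic cohomology groups `H^j(X)` of `X`, `ℓ ≠ p`, with the action `F`
of a geometric Frobenius element of the Weil group and the monodromy operator `N` (this is `R`), and
another cohomology theory of this kind for `X` (this is `P`): the Hyodo-Kato cohomology, that is, the
filtered `(φ, N)`-module given by the `p`-adic cohomology, or the `ℓ'`-adic cohomology for another prime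
number `ℓ'`. The coefficients are extended to one algebraically closed field `Ω` (all algebraic
closures of the fields `ℚ_ℓ` are isomorphic). Here `F` is an element of the Weil group of `K` which
induces the geometric Frobenius (in the Hyodo-Kato cohomology: the linear Frobenius operator).

Known properties of each of the theories (`IsCoh`): `N F = q F N`, the eigenvalues of `F` are Weil
numbers of integral weights, and `H^j(X)` is self-dual up to a twist (Poincaré duality and hard
Lefschetz). Known relation of the two theories (`SameAlternating`, theorems of Saito and Ochiai): the
alternating sums over `j` of the multiplicities of a number `α` as an eigenvalue of `F` on `H^j(X)` are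
the same; the Betti numbers are the same (`SameBetti`).

For `H^m(X)` in the theory `R` let the *rank moment* be `2 ∑ k rank (N^k)`, the *weight moment* be
`∑ (w - m)²` (over the weights `w` of the eigenvalues of `F`), the *Newton moment* be `∑ (2 λ - m)²` (over
their slopes, `λ = val α`, `val` a valuation above `p` with `val q = 1`), and the *Hodge moment* be
`∑ (a - b)² h^{a,b}(X)`, `a + b = m`.

**Part I: the cohomology outside of the degree `m` is good**, that is, for `j ≠ m` the multiplicities of
the eigenvalues of `F` on `H^j(X)` are the same in the two theories, and the characteristic polynomial is
rational or all eigenvalues are powers of `q`. This is the case if `H^j(X)` is generated by algebraic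
cycles for `j ≠ m` (after a finite extension of `K`): for example if `m = dim X` and `X` is a
complete intersection in a Grassmannian or another flag variety (for complete intersections in
projective spaces the conjecture is known by the theorem of Scholze), or if `X` is a threefold with
`h^{1,0} = h^{2,0} = 0` and `m = 3` (all Calabi-Yau threefolds, for example). Let `P` be the `p`-adic theory, whose Newton
polygon lies above the Hodge polygon (`NewtonAboveHodge`, weak admissibility). Then for the `ℓ`-adic
cohomology `H^m(X)`:

(1) rank moment `≤` weight moment `≤` Newton moment `≤` Hodge moment;

(2) the number of the eigenvalues of `F` on the graded pieces of the monodromy filtration whose weight is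
not the expected one is at most the difference of the Hodge moment and the rank moment;

(3) (maximal monodromy) **if the rank moment of the `ℓ`-adic `N` is at least the Hodge moment then the
monodromy-weight conjecture is true for `H^m(X, ℚ_ℓ)`**; moreover then the weights are `2 a` with the
multiplicity `h^{a,m-a}`, and the slopes are `a`;

(4) if the conjecture is true for the `p`-adic theory `P` then the rank moment of the `ℓ`-adic `N` is at
most the one of the `p`-adic `N`, and the `ℓ`-adic conjecture is true if and only if they are equal (and
the same with the two theories exchanged).

For a Calabi-Yau threefold the Hodge moment is `18 + 2 h^{2,1}`, and (3) says that the conjecture is true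
if `rank N + 2 rank N² + 3 rank N³ ≥ 9 + h^{2,1}`, that is, for the maximal degeneration, where `N` has one
Jordan block of size four and `h^{2,1} - 1` blocks of size two.

**Part II: the conjecture is known outside of the degree `m`**. Suppose that in both theories the
conjecture is true for `H^j(X)`, `j ≠ m`. **This is the case for all threefolds, with `m = 3`** (Rapoport-Zink,
de Jong; Mokrane for the `p`-adic theory). Let `altRank` be the alternating sum
`∑ (-1)^j 2 ∑ k rank (N^k | H^j(X))`. If the conjecture is true for `P` then `(-1)^m altRank R ≤ (-1)^m altRank P`,
and the conjecture is true for `R` if and only if `altRank R = altRank P`. So for a threefold `X` the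
conjecture for one prime `ℓ'` (or `p`) implies the conjecture for another prime `ℓ` if and only if the
alternating sum of the ranks is the same; no hypothesis on the cohomology of `X` is needed here, and
the characteristic polynomials of `F` on the single groups `H^j(X)` may depend on `ℓ`, for all that is known.

For the Hyodo-Kato cohomology the statements (1), (2) and (3) are the theorem `MaximalMonodromy` of
MP_d037d4_ag in the starting library, whose lemmas are used here.

## Proof

The conjecture for `H^m` is equivalent to the equality of the rank moment and the weight moment, and the
first one is at most the second one (`Coh.moment_deg`). The weight moments are equal in the two theories, if the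
multiplicities of the eigenvalues are (`weightMoment_congr`). In general, the sum of the weights on `H^j`
is `j` times the Betti number, by duality, and so the weight moment is the sum of the `w²` minus `j²` times
the Betti number; therefore the alternating sum of the weight moments is the same in the two theories
(`alt_weightMoment`). The characteristic polynomial on `H^m` has rational coefficients if the ones on
the other groups do, by the theorem of Saito and Ochiai; so the slopes of the eigenvalues of weight `w`
are symmetric with respect to `w / 2`, and this gives the comparison of the weight moment and the Newton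
moment (`newton_eq`). The last inequality is the inequality of Karamata.
-/

set_option autoImplicit false

open Module

universe v w

namespace Pool.Agent.Results.MP_cd312e_ag.MaximalMonodromy

open Pool.Agent.Y143 Pool.Agent.Y163.MW Pool.Agent.Y163.MX Pool.Agent.V8H91.ML

section

variable {Ω : Type w} [Field Ω] [CharZero Ω]

/-- The Betti numbers are the same. -/
def SameBetti (R P : Coh.{v, w} Ω) (k : ℕ) : Prop :=
  ∀ j ≤ k, finrank Ω (R.gr j) = finrank Ω (P.gr j)

/-- The sandwich `2 ∑ k rank (N ^ k) ≤ ∑ (w - m)² ≤ ∑ (2 λ - m)² ≤ ∑ (a - b)² h^(a,b)` for `H^m(X)`. -/
def Sandwich (R : Coh.{v, w} Ω) (q : ℕ) (val : Ω → ℝ) (hdg : ℕ → ℕ) (m : ℕ) : Prop :=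
  R.rankMoment m ≤ R.weightMoment q m ∧ (R.weightMoment q m : ℝ) ≤ newtonMoment R val m ∧
    newtonMoment R val m ≤ (hodgeMoment m hdg : ℝ)

/-- The number of the Frobenius eigenvalues on the graded pieces of the monodromy filtration of
`H^m(X)` whose weight is not the expected one is at most `∑ (a - b)² h^(a,b) - 2 ∑ k rank (N ^ k)`. -/
def FewWrong (R : Coh.{v, w} Ω) (q : ℕ) (hdg : ℕ → ℕ) (m : ℕ) : Prop :=
  ∀ M : ℤ → Submodule Ω R.V, IsMonodromyFiltrationOn (R.gr m) R.N M →
    (finrank Ω (R.gr m) : ℤ) - rightDeg R q m M ≤ hodgeMoment m hdg - R.rankMoment m

/-- If the monodromy is maximal, that is, `2 ∑ k rank (N ^ k) ≥ ∑ (a - b)² h^(a,b)`, then the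
conjecture is true for `H^m(X)`; moreover all Frobenius eigenvalues on `H^m(X)` have
a weight `2 a` and the slope `a` for some natural number `a`, and there are `h^(a, m - a)` eigenvalues
of weight `2 a`. -/
def MaximalCase (R : Coh.{v, w} Ω) (q : ℕ) (val : Ω → ℝ) (hdg : ℕ → ℕ) (m : ℕ) : Prop :=
  hodgeMoment m hdg ≤ R.rankMoment m → R.MWPure q m ∧
    (∀ α, mult R m α ≠ 0 → ∃ a : ℕ, hdg a ≠ 0 ∧ IsWeilNumber q (2 * (a : ℤ)) α ∧ val α = a) ∧
    ∀ a : ℕ, finrank Ω (R.exc q m (2 * (a : ℤ) - m)) = hdg a

/-- If the conjecture is true for `H^m` in the theory `P`, then the rank moment of `R` is at most the
rank moment of `P`, and the conjecture is true in the theory `R` if and only if they are equal. -/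
def Transfer (R P : Coh.{v, w} Ω) (q m : ℕ) : Prop :=
  P.MWPure q m → R.rankMoment m ≤ P.rankMoment m ∧
    (R.MWPure q m ↔ R.rankMoment m = P.rankMoment m)

end

/-- **The `ℓ`-adic monodromy-weight conjecture for varieties with maximal monodromy, and the comparison of
two theories.** `R` is the `ℓ`-adic cohomology of the smooth projective variety `X` over a local field with
residue field with `q` elements (`k = 2 dim X`), and `P` is another theory, for example the
Hyodo-Kato cohomology; the two theories have the same Betti numbers and the same alternating sums of
the multiplicities of the eigenvalues of Frobenius.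

Part I: if the cohomology outside of the degree `m` is good and the same in the two theories, and if the
Newton polygon lies above the Hodge polygon in the theory `P`, then the rank moment of `R` is at most
the Hodge moment, the number of wrong eigenvalues is bounded by the difference, the conjecture for
`H^m` is true in the theory `R` if the monodromy is maximal; and the conjecture can be transferred from
one theory to the other one if and only if the rank moments are the same.

Part II: if the conjecture is true outside of the degree `m` in both theories (for example for threefolds
and `m = 3`) and for `P` also in the degree `m`, then it is true for `R` if and only if the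
alternating sums of the rank moments are the same. -/
theorem result {Ω : Type w} [Field Ω] [CharZero Ω] [IsAlgClosed Ω] {q : ℕ} (hq : 1 < q)
    (R P : Coh.{v, w} Ω) (hR : R.IsCoh q) (hP : P.IsCoh q) (k m : ℕ) (hm : m ≤ k)
    (hb : SameBetti R P k) (halt : SameAlternating R P k) :
    (∀ (val : Ω → ℝ) (hdg : ℕ → ℕ), IsVal q val → NewtonAboveHodge P val m hdg →
      AltRational P k → GoodOutside P q k m → SameOutside R P k m →
        Sandwich R q val hdg m ∧ FewWrong R q hdg m ∧ MaximalCase R q val hdg m ∧
          Transfer R P q m ∧ Transfer P R q m) ∧
    ((∀ j, j ≤ k → j ≠ m → R.MWPure q j) → (∀ j, j ≤ k → j ≠ m → P.MWPure q j) →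
      P.MWPure q m → (-1) ^ m * altRank R k ≤ (-1) ^ m * altRank P k ∧
        (R.MWPure q m ↔ altRank R k = altRank P k)) := by
  refine ⟨fun val hdg hv hN hrat hgood hout => ?_, fun ho ho' hmw =>
    transfer_alt hq hR hP hm hb halt ho ho' hmw⟩
  have hmult := mult_of_alt hm halt hout
  have hr : RationalPoly (charP R m) := by
    rw [charP_congr hmult]
    exact rational_of_good hP hm hrat hgood
  have hN' := newton_congr hmult hN
  have hw := weightMoment_congr hq hR hP hmult
  have hs := sandwich hq hR hr hv hN'
  refine ⟨hs, fun M hM => ?_, fun h => maximal hq hR hr hv hN' h, fun h => ?_, fun h => ?_⟩
  · refine (wrong_le hq hR m hM).trans ?_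
    have h1 : R.weightMoment q m ≤ hodgeMoment m hdg := by
      exact_mod_cast hs.2.1.trans hs.2.2
    linarith
  · exact transfer hq hR hP hw h
  · exact transfer hq hP hR hw.symm h

end Pool.Agent.Results.MP_cd312e_ag.MaximalMonodromy
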