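import Mathlib
import Pool.Agent.V8H91.MW.Defs
import Pool.Agent.V8H91.MW.TateDefs
import Pool.Agent.V8H91.MW.Criterion

/-!
# The monodromy-weight conjecture and the weights of inertia invariants in products with Tate curves

Let `X` be a smooth projective variety over a local field `K` with residue field of `q` elements,
`V = H^m(X)` with coefficients in an algebraic closure `Ω` of `ℚ_ℓ`, `N` its monodromy operator, and
`E` a Tate elliptic curve over `K`.  The kernel of the monodromy operator on `V ⊗ Sym^k H^1(E)`, a
direct summand of `H^{m+k}(X × E^k)`, is the space of invariants of a small open subgroup of inertia.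
If the local invariant cycle property holds for `X × E^k` then all weights of the Weil group on this
space are at most `m + k` (it is a quotient of the cohomology of the special fibre).

We prove that these upper bounds, for `0 ≤ k ≤ m - 3`, are EQUIVALENT to the monodromy-weight
conjecture for `H^m(X)`.  In particular: for `m = 3` the monodromy-weight conjecture is equivalent to
the statement that the inertia invariants in `H^3(X)` have weights at most `3`, and the local
invariant cycle property for all smooth projective varieties implies the monodromy-weight conjecture
for all smooth projective varieties.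

The inputs are the known properties of `V` (`IsGeometric`: integral weights between `0` and `2 m`,
Poincaré duality and hard Lefschetz) and the known part of the conjecture (`KnownEdges`:
`N^m : gr_{2m} → gr_0` and `N^{m-1} : gr_{2m-1} → gr_1`, which only involve the cohomology groups
`H^0` and `H^1` of strata of a semistable model).  The group `W` with `v : W → ℤ` is the Weil group
(geometric Frobenius elements are mapped to `1`, inertia to `0`).

Idea: an eigenvector `x` of `g` with `N^{k+1} x = 0` corresponds to the eigenvector
`exp(-(X - x₀) N) x`, a polynomial of degree at most `k` with coefficients in `V`, in the kernel of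
`N ⊗ 1 + 1 ⊗ d/dX`, where `x₀` is the fixed point of the substitution `X ↦ q^{v(g)} X + c(g)`.
-/

set_option autoImplicit false

namespace Pool.Agent.Results.MP_cd312e_ag.TateCurveCriterion

open TensorProduct Pool.Agent.V8H91.MW

/-- The monodromy-weight property in degree `m` is equivalent to the bounds `≤ m + k` for the
weights on the kernel of the monodromy operator in `V ⊗ Sym^k H^1(E)`, `0 ≤ k ≤ m - 3`. -/
theorem result {Ω : Type*} [Field Ω] [CharZero Ω] [IsAlgClosed Ω]
    -- the Weil group
    (q : ℕ) (hq : 1 < q) {W : Type*} [Group W] (v : W →* Multiplicative ℤ)
    (hv : ∃ g, v g = Multiplicative.ofAdd 1)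
    -- the cohomology group `V = H^m(X)` with its monodromy operator
    {V : Type*} [AddCommGroup V] [Module Ω V] [FiniteDimensional Ω V]
    (ρ : Representation Ω W V) (N : Module.End Ω V) (m : ℕ)
    (hV : IsGeometric q v ρ N m) (hE : KnownEdges q v ρ N m)
    -- the Tate curve: `g X = q ^ v(g) X + c(g)` in `H^1(E)`
    (c : W → Ω) :
    MonodromyWeight q v ρ N m ↔
      ∀ k : ℕ, k + 3 ≤ m → ∀ g, 0 < (v g).toAdd → ∀ (μ : Ω) (y : V ⊗[Ω] SymE Ω k), y ≠ 0 →
        monSym N k y = 0 → actSym q v ρ c k g y = μ • y →
        ∀ w : ℤ, IsWeil q (v g).toAdd w μ → w ≤ m + k :=
  tate_criterion hq hv hV hE c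

end Pool.Agent.Results.MP_cd312e_ag.TateCurveCriterion
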